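import Pool.Agent.helper22.GS.Spec

/-!
# gs:TR: transport along an isometric embedding
-/

set_option autoImplicit false

namespace Pool.Agent.GS

open Module

theorem TR_tv {F V W : Type} [Field F] [AddCommGroup V] [Module F V] [AddCommGroup W] [Module F W]
    {B : LinearMap.BilinForm F V} {C : LinearMap.BilinForm F W} (hB : Alt B) (hC : Alt C)
    (ι : W →ₗ[F] V) (h : ∀ x y, B (ι x) (ι y) = C x y) (v : W) (a : F) (x : W) :
    tv B (ι v) a (ι x) = ι (tv C v a x) := by
  rw [tv_apply hB, tv_apply hC, h, map_add, map_smul]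

theorem TR_pr {F V W : Type} [Field F] [AddCommGroup V] [Module F V] [AddCommGroup W] [Module F W]
    {B : LinearMap.BilinForm F V} {C : LinearMap.BilinForm F W} (hB : Alt B) (hC : Alt C)
    (ι : W →ₗ[F] V) (h : ∀ x y, B (ι x) (ι y) = C x y) (L : List ((W × W) × (F × F))) (x : W) :
    pr B (L.map fun t => ((ι t.1.1, ι t.1.2), t.2)) (ι x) = ι (pr C L x) := by
  induction L with
  | nil => simp [pr]
  | cons t L ih =>
    have e1 : pr B ((t :: L).map fun t => ((ι t.1.1, ι t.1.2), t.2)) =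
        tv B (ι t.1.1) t.2.1 * tv B (ι t.1.2) t.2.2 *
          pr B (L.map fun t => ((ι t.1.1, ι t.1.2), t.2)) := by
      simp only [pr, List.map_cons, List.prod_cons]
    have e2 : pr C (t :: L) = tv C t.1.1 t.2.1 * tv C t.1.2 t.2.2 * pr C L := by
      simp only [pr, List.map_cons, List.prod_cons]
    rw [e1, e2]
    simp only [Equiv.Perm.mul_apply]
    rw [ih, TR_tv hB hC ι h, TR_tv hB hC ι h]

theorem TR_pow {F V W : Type} [Field F] [AddCommGroup V] [Module F V] [AddCommGroup W] [Module F W]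
    (ι : W →ₗ[F] V) (z : Equiv.Perm V) (w : Equiv.Perm W) (h : ∀ x, z (ι x) = ι (w x)) (j : ℕ)
    (x : W) : (z ^ j) (ι x) = ι ((w ^ j) x) := by
  induction j generalizing x with
  | zero => simp
  | succ j ih =>
    rw [pow_succ, pow_succ, Equiv.Perm.mul_apply, Equiv.Perm.mul_apply, h, ih]

theorem TR : TR_stmt := by
  intro F V W _ _ _ _ _ B C hB hC ι hι h r τ L hL hN
  refine ⟨?_, ?_⟩
  · intro t ht
    rw [List.mem_map] at ht
    obtain ⟨s, hs, rfl⟩ := ht
    obtain ⟨h1, h2, h3, h4, h5⟩ := hL s hs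
    refine ⟨?_, ?_, h3, h4, h5⟩
    · have h6 := h1.map' ι (LinearMap.ker_eq_bot.mpr hι)
      have h7 : (ι : W → V) ∘ ![s.1.1, s.1.2] = ![ι s.1.1, ι s.1.2] := by
        funext i
        fin_cases i <;> rfl
      rw [h7] at h6
      exact h6
    · show B (ι s.1.1) (ι s.1.2) = 0
      rw [h, h2]
  · intro j c hc
    refine hN j c fun w => ?_
    apply hι
    rw [map_smul, ← hc (ι w), TR_pow ι _ (pr C L) (TR_pr hB hC ι h L)]

end Pool.Agent.GS
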